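import Mathlib

/-!
A cubic graph on 28 vertices in which all five inequalities of the domination chain
`ir ≤ γ ≤ i ≤ β₀ ≤ Γ ≤ IR` are strict: the values are `7 < 8 < 9 < 10 < 11 < 12`.
-/

namespace Pool.Agent.Results.MP_93f3b8_co.StrictChain

section defs

variable {V : Type*} (G : SimpleGraph V)

/-- `w` lies in the closed neighbourhood `N[v]`. -/
def InN (v w : V) : Prop := w = v ∨ G.Adj v w

/-- `S` is dominating: `N[S] = V`. -/
def Dominating (S : Finset V) : Prop := ∀ w, ∃ v ∈ S, InN G v w

/-- `S` is independent. -/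
def Indep (S : Finset V) : Prop := ∀ u ∈ S, ∀ v ∈ S, ¬ G.Adj u v

/-- `S` is irredundant: every vertex of `S` has a private neighbour. -/
def Irredundant (S : Finset V) : Prop :=
  ∀ v ∈ S, ∃ w, InN G v w ∧ ∀ u ∈ S, u ≠ v → ¬ InN G u w

/-- A maximal (under inclusion) irredundant set. -/
def MaxIrredundant (S : Finset V) : Prop :=
  Irredundant G S ∧ ∀ T, S ⊂ T → ¬ Irredundant G T

/-- A maximal (under inclusion) independent set. -/
def MaxIndep (S : Finset V) : Prop :=
  Indep G S ∧ ∀ T, S ⊂ T → ¬ Indep G T

/-- A minimal (under inclusion) dominating set. -/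
def MinDominating (S : Finset V) : Prop :=
  Dominating G S ∧ ∀ T, T ⊂ S → ¬ Dominating G T

/-- `ir(G)`: the minimum size of a maximal irredundant set. -/
noncomputable def ir : ℕ := sInf {k | ∃ S : Finset V, MaxIrredundant G S ∧ S.card = k}

/-- `γ(G)`: the minimum size of a dominating set. -/
noncomputable def gamma : ℕ := sInf {k | ∃ S : Finset V, Dominating G S ∧ S.card = k}

/-- `i(G)`: the minimum size of a maximal independent set. -/
noncomputable def indDom : ℕ := sInf {k | ∃ S : Finset V, MaxIndep G S ∧ S.card = k}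

/-- `β₀(G)`: the maximum size of an independent set. -/
noncomputable def beta0 : ℕ := sSup {k | ∃ S : Finset V, Indep G S ∧ S.card = k}

/-- `Γ(G)`: the maximum size of a minimal dominating set. -/
noncomputable def Gam : ℕ := sSup {k | ∃ S : Finset V, MinDominating G S ∧ S.card = k}

/-- `IR(G)`: the maximum size of an irredundant set. -/
noncomputable def IR : ℕ := sSup {k | ∃ S : Finset V, Irredundant G S ∧ S.card = k}

end defs

section general

variable {V : Type*} (G : SimpleGraph V)

lemma Irredundant.mono {S T : Finset V} (h : Irredundant G T) (hst : S ⊆ T) :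
    Irredundant G S := by
  intro v hv
  obtain ⟨w, h1, h2⟩ := h v (hst hv)
  exact ⟨w, h1, fun u hu hne => h2 u (hst hu) hne⟩

lemma Indep.irredundant {S : Finset V} (h : Indep G S) : Irredundant G S := by
  intro v hv
  refine ⟨v, Or.inl rfl, ?_⟩
  intro u hu hne hin
  rcases hin with h1 | h1
  · exact hne h1.symm
  · exact h u hu v hv h1

lemma MinDominating.irredundant {S : Finset V} (h : MinDominating G S) : Irredundant G S := by
  classical
  intro v hv
  have h1 := h.2 (S.erase v) (Finset.erase_ssubset hv)
  unfold Dominating at h1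
  push Not at h1
  obtain ⟨w, hw⟩ := h1
  obtain ⟨u, hu, hin⟩ := h.1 w
  have huv : u = v := by
    by_contra hne
    exact hw u (Finset.mem_erase.mpr ⟨hne, hu⟩) hin
  subst huv
  exact ⟨w, hin, fun x hx hne => hw x (Finset.mem_erase.mpr ⟨hne, hx⟩)⟩

lemma minDominating_of {S : Finset V} (h1 : Dominating G S) (h2 : Irredundant G S) :
    MinDominating G S := by
  refine ⟨h1, ?_⟩
  intro T hT hdom
  obtain ⟨v, hv, hvT⟩ := Finset.exists_of_ssubset hT
  obtain ⟨w, _, hw⟩ := h2 v hv
  obtain ⟨u, hu, hin⟩ := hdom w
  exact hw u (hT.1 hu) (fun h => hvT (h ▸ hu)) hin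

lemma exists_minDominating {S : Finset V} (h : Dominating G S) :
    ∃ T ⊆ S, MinDominating G T := by
  classical
  induction S using Finset.strongInduction with
  | H S ih =>
    by_cases hmin : ∀ T, T ⊂ S → ¬ Dominating G T
    · exact ⟨S, subset_rfl, h, hmin⟩
    · push Not at hmin
      obtain ⟨T, hT, hdom⟩ := hmin
      obtain ⟨T', h1, h2⟩ := ih T hT hdom
      exact ⟨T', h1.trans hT.1, h2⟩

lemma MaxIndep.dominating {S : Finset V} (h : MaxIndep G S) : Dominating G S := by
  classical
  intro w
  by_contra hcon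
  push Not at hcon
  have hw : w ∉ S := fun hw => hcon w hw (Or.inl rfl)
  apply h.2 (insert w S) (Finset.ssubset_insert hw)
  intro u hu v hv hadj
  rcases Finset.mem_insert.mp hu with rfl | hu'
  · rcases Finset.mem_insert.mp hv with rfl | hv'
    · exact G.loopless.irrefl _ hadj
    · exact hcon v hv' (Or.inr hadj.symm)
  · rcases Finset.mem_insert.mp hv with rfl | hv'
    · exact hcon u hu' (Or.inr hadj)
    · exact h.1 u hu' v hv' hadj

lemma maxIndep_of {S : Finset V} (h1 : Dominating G S) (h2 : Indep G S) : MaxIndep G S := by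
  refine ⟨h2, ?_⟩
  intro T hT hind
  obtain ⟨v, hv, hvS⟩ := Finset.exists_of_ssubset hT
  obtain ⟨u, hu, hin⟩ := h1 v
  rcases hin with rfl | hadj
  · exact hvS hu
  · exact hind u (hT.1 hu) v hv hadj

end general

/-! ### Disjoint unions -/

section union

variable {V W : Type*} (G : SimpleGraph V) (H : SimpleGraph W)

lemma inN_inl {v w : V} : InN (G ⊕g H) (Sum.inl v) (Sum.inl w) ↔ InN G v w := by
  simp [InN]

lemma inN_inr {v w : W} : InN (G ⊕g H) (Sum.inr v) (Sum.inr w) ↔ InN H v w := by
  simp [InN]

lemma not_inN_lr {v : V} {w : W} : ¬ InN (G ⊕g H) (Sum.inl v) (Sum.inr w) := by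
  simp [InN]

lemma not_inN_rl {v : V} {w : W} : ¬ InN (G ⊕g H) (Sum.inr w) (Sum.inl v) := by
  simp [InN]

lemma dominating_iff (S : Finset (V ⊕ W)) :
    Dominating (G ⊕g H) S ↔ Dominating G S.toLeft ∧ Dominating H S.toRight := by
  constructor
  · intro h
    constructor
    · intro w
      obtain ⟨v, hv, hin⟩ := h (Sum.inl w)
      rcases v with v | v
      · exact ⟨v, Finset.mem_toLeft.mpr hv, (inN_inl G H).mp hin⟩
      · exact absurd hin (not_inN_rl G H)
    · intro w
      obtain ⟨v, hv, hin⟩ := h (Sum.inr w)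
      rcases v with v | v
      · exact absurd hin (not_inN_lr G H)
      · exact ⟨v, Finset.mem_toRight.mpr hv, (inN_inr G H).mp hin⟩
  · rintro ⟨h1, h2⟩ w
    rcases w with w | w
    · obtain ⟨v, hv, hin⟩ := h1 w
      exact ⟨Sum.inl v, Finset.mem_toLeft.mp hv, (inN_inl G H).mpr hin⟩
    · obtain ⟨v, hv, hin⟩ := h2 w
      exact ⟨Sum.inr v, Finset.mem_toRight.mp hv, (inN_inr G H).mpr hin⟩

lemma indep_iff (S : Finset (V ⊕ W)) :
    Indep (G ⊕g H) S ↔ Indep G S.toLeft ∧ Indep H S.toRight := by
  constructor
  · intro h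
    constructor
    · intro u hu v hv hadj
      exact h _ (Finset.mem_toLeft.mp hu) _ (Finset.mem_toLeft.mp hv) (by simpa using hadj)
    · intro u hu v hv hadj
      exact h _ (Finset.mem_toRight.mp hu) _ (Finset.mem_toRight.mp hv) (by simpa using hadj)
  · rintro ⟨h1, h2⟩ u hu v hv hadj
    rcases u with u | u <;> rcases v with v | v
    · exact h1 u (Finset.mem_toLeft.mpr hu) v (Finset.mem_toLeft.mpr hv) (by simpa using hadj)
    · simp at hadj
    · simp at hadj
    · exact h2 u (Finset.mem_toRight.mpr hu) v (Finset.mem_toRight.mpr hv) (by simpa using hadj)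

lemma irredundant_iff (S : Finset (V ⊕ W)) :
    Irredundant (G ⊕g H) S ↔ Irredundant G S.toLeft ∧ Irredundant H S.toRight := by
  constructor
  · intro h
    constructor
    · intro v hv
      obtain ⟨w, h1, h2⟩ := h _ (Finset.mem_toLeft.mp hv)
      rcases w with w | w
      · refine ⟨w, (inN_inl G H).mp h1, fun u hu hne hin => ?_⟩
        exact h2 _ (Finset.mem_toLeft.mp hu) (by simpa using hne) ((inN_inl G H).mpr hin)
      · exact absurd h1 (not_inN_lr G H)
    · intro v hv
      obtain ⟨w, h1, h2⟩ := h _ (Finset.mem_toRight.mp hv)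
      rcases w with w | w
      · exact absurd h1 (not_inN_rl G H)
      · refine ⟨w, (inN_inr G H).mp h1, fun u hu hne hin => ?_⟩
        exact h2 _ (Finset.mem_toRight.mp hu) (by simpa using hne) ((inN_inr G H).mpr hin)
  · rintro ⟨h1, h2⟩ v hv
    rcases v with v | v
    · obtain ⟨w, h3, h4⟩ := h1 v (Finset.mem_toLeft.mpr hv)
      refine ⟨Sum.inl w, (inN_inl G H).mpr h3, ?_⟩
      intro u hu hne
      rcases u with u | u
      · intro hin
        exact h4 u (Finset.mem_toLeft.mpr hu) (by simpa using hne) ((inN_inl G H).mp hin)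
      · exact not_inN_rl G H
    · obtain ⟨w, h3, h4⟩ := h2 v (Finset.mem_toRight.mpr hv)
      refine ⟨Sum.inr w, (inN_inr G H).mpr h3, ?_⟩
      intro u hu hne
      rcases u with u | u
      · exact not_inN_lr G H
      · intro hin
        exact h4 u (Finset.mem_toRight.mpr hu) (by simpa using hne) ((inN_inr G H).mp hin)

end union

/-! ### Enumeration of the irredundant sets of a small graph -/

section search

/-- Depth-first enumeration of the irredundant sets.  The list holds for each remaining vertex
its closed neighbourhood and itself as bit masks; `L` holds the closed neighbourhoods of the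
chosen vertices, `c1` and `c2` the vertices covered at least once and at least twice. -/
def go (full g i b Ga : ℕ) : List (ℕ × ℕ) → List ℕ → ℕ → ℕ → ℕ → Bool → Bool
  | [], _, c1, _, k, ind =>
    (!(Nat.beq c1 full) || (Nat.ble g k && (Nat.ble k Ga && (!ind || Nat.ble i k)))) &&
      (!ind || Nat.ble k b)
  | (cv, bv) :: rest, L, c1, c2, k, ind =>
    go full g i b Ga rest L c1 c2 k ind &&
      (match (cv :: L).all
          (fun c => !(Nat.beq (Nat.land c (Nat.xor (Nat.lor c1 cv)
            (Nat.lor c2 (Nat.land c1 cv)))) 0)) with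
        | true => go full g i b Ga rest (cv :: L) (Nat.lor c1 cv) (Nat.lor c2 (Nat.land c1 cv))
            (k + 1) (ind && Nat.beq (Nat.land c1 bv) 0)
        | false => true)

variable {n : ℕ}

/-- The vertices covered at least once. -/
def cov1 (cn : Fin n → ℕ) : List (Fin n) → ℕ
  | [] => 0
  | v :: l => Nat.lor (cov1 cn l) (cn v)

/-- The vertices covered at least twice. -/
def cov2 (cn : Fin n → ℕ) : List (Fin n) → ℕ
  | [] => 0
  | v :: l => Nat.lor (cov2 cn l) (Nat.land (cov1 cn l) (cn v))

lemma testBit_lor' (a b i : ℕ) : (Nat.lor a b).testBit i = (a.testBit i || b.testBit i) :=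
  Nat.testBit_or a b i

lemma testBit_land' (a b i : ℕ) : (Nat.land a b).testBit i = (a.testBit i && b.testBit i) :=
  Nat.testBit_and a b i

lemma testBit_xor' (a b i : ℕ) : (Nat.xor a b).testBit i = (a.testBit i ^^ b.testBit i) :=
  Nat.testBit_xor a b i

lemma cov1_spec (cn : Fin n → ℕ) (l : List (Fin n)) (w : ℕ) :
    (cov1 cn l).testBit w = true ↔ ∃ v ∈ l, (cn v).testBit w = true := by
  induction l with
  | nil => simp [cov1]
  | cons v l ih =>
    rw [cov1, testBit_lor', Bool.or_eq_true, ih]
    simp only [List.mem_cons, exists_eq_or_imp]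
    exact or_comm

lemma cov2_spec (cn : Fin n → ℕ) (l : List (Fin n)) (hl : l.Nodup) (w : ℕ)
    (h : (cov2 cn l).testBit w = true) :
    ∃ u ∈ l, ∃ v ∈ l, u ≠ v ∧ (cn u).testBit w = true ∧ (cn v).testBit w = true := by
  induction l with
  | nil => simp [cov2] at h
  | cons v l ih =>
    rw [cov2, testBit_lor', testBit_land', Bool.or_eq_true, Bool.and_eq_true, cov1_spec] at h
    rw [List.nodup_cons] at hl
    rcases h with h | ⟨⟨u, hu, huw⟩, hvw⟩
    · obtain ⟨a, ha, b, hb, h1⟩ := ih hl.2 h
      exact ⟨a, List.mem_cons_of_mem _ ha, b, List.mem_cons_of_mem _ hb, h1⟩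
    · refine ⟨u, List.mem_cons_of_mem _ hu, v, List.mem_cons_self, ?_, huw, hvw⟩
      rintro rfl
      exact hl.1 hu

/-- What the enumeration establishes for an irredundant set `S`. -/
def Good (G : SimpleGraph (Fin n)) (g i b Ga : ℕ) (S : Finset (Fin n)) : Prop :=
  (Dominating G S → g ≤ S.card ∧ S.card ≤ Ga ∧ (Indep G S → i ≤ S.card)) ∧
    (Indep G S → S.card ≤ b)

theorem go_sound (G : SimpleGraph (Fin n)) (cn : Fin n → ℕ)
    (hcn : ∀ v w : Fin n, (cn v).testBit w = true ↔ InN G v w) (hlt : ∀ v, cn v < 2 ^ n)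
    (g i b Ga : ℕ) (S : Finset (Fin n)) (hS : Irredundant G S) :
    ∀ (vs l : List (Fin n)) (ind : Bool), l.Nodup → vs.Nodup → (∀ v ∈ l, v ∈ S) →
      (∀ v ∈ l, v ∉ vs) → (∀ v ∈ S, v ∈ l ∨ v ∈ vs) → (Indep G S → ind = true) →
      go (2 ^ n - 1) g i b Ga (vs.map fun v => (cn v, 2 ^ (v : ℕ))) (l.map cn) (cov1 cn l)
        (cov2 cn l) l.length ind = true → Good G g i b Ga S := by
  intro vs
  induction vs with
  | nil =>
    intro l ind hl _ hlS _ hSl hind h
    have hSeq : S = l.toFinset := by
      ext v
      rw [List.mem_toFinset]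
      constructor
      · intro hv
        rcases hSl v hv with h1 | h1
        · exact h1
        · simp at h1
      · exact hlS v
    have hcard : S.card = l.length := by
      rw [hSeq, List.toFinset_card_of_nodup hl]
    simp only [List.map_nil, go, Bool.and_eq_true, Bool.or_eq_true, Bool.not_eq_true',
      Nat.ble_eq] at h
    refine ⟨?_, ?_⟩
    · intro hdom
      have hfull : cov1 cn l = 2 ^ n - 1 := by
        apply Nat.eq_of_testBit_eq
        intro w
        rw [Nat.testBit_two_pow_sub_one]
        by_cases hw : w < n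
        · rw [decide_eq_true hw]
          rw [cov1_spec]
          obtain ⟨v, hv, hin⟩ := hdom ⟨w, hw⟩
          refine ⟨v, ?_, (hcn v ⟨w, hw⟩).mpr hin⟩
          rw [hSeq] at hv
          exact List.mem_toFinset.mp hv
        · rw [decide_eq_false hw]
          by_contra hcon
          rw [Bool.not_eq_false, cov1_spec] at hcon
          obtain ⟨v, _, hv⟩ := hcon
          have : (cn v).testBit w = false :=
            Nat.testBit_lt_two_pow (lt_of_lt_of_le (hlt v)
              (Nat.pow_le_pow_right (by norm_num) (by omega)))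
          rw [this] at hv
          exact absurd hv (by simp)
      have h1 : Nat.beq (cov1 cn l) (2 ^ n - 1) = true := by
        rw [hfull]; exact Nat.beq_refl _
      have h2 := h.1
      rw [h1] at h2
      rcases h2 with h2 | h2
      · simp at h2
      · refine ⟨by omega, by omega, ?_⟩
        intro hi
        have := hind hi
        rcases h2.2.2 with h3 | h3
        · rw [this] at h3; simp at h3
        · omega
    · intro hi
      have := hind hi
      rcases h.2 with h3 | h3
      · rw [this] at h3; simp at h3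
      · omega
  | cons v vs ih =>
    intro l ind hl hvs hlS hlv hSl hind h
    rw [List.nodup_cons] at hvs
    simp only [List.map_cons, go, Bool.and_eq_true] at h
    by_cases hvS : v ∈ S
    · have hvl : v ∉ l := fun hv => hlv v hv List.mem_cons_self
      have hnd : (v :: l).Nodup := List.nodup_cons.mpr ⟨hvl, hl⟩
      have hsub : ∀ u ∈ v :: l, u ∈ S := by
        intro u hu
        rcases List.mem_cons.mp hu with rfl | hu
        · exact hvS
        · exact hlS u hu
      have hall : ((cn v :: l.map cn).all
          (fun c => !(Nat.beq (Nat.land c (Nat.xor (Nat.lor (cov1 cn l) (cn v))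
            (Nat.lor (cov2 cn l) (Nat.land (cov1 cn l) (cn v))))) 0))) = true := by
        rw [← List.map_cons, List.all_map, List.all_eq_true]
        intro u hu
        obtain ⟨w, h1, h2⟩ := hS u (hsub u hu)
        have hb1 : (cov1 cn (v :: l)).testBit w = true := by
          rw [cov1_spec]
          exact ⟨u, hu, (hcn u w).mpr h1⟩
        have hb2 : (cov2 cn (v :: l)).testBit w = false := by
          by_contra hcon
          rw [Bool.not_eq_false] at hcon
          obtain ⟨a, ha, c, hc, hac, h3, h4⟩ := cov2_spec cn _ hnd _ hcon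
          rcases eq_or_ne a u with rfl | hau
          · exact h2 c (hsub c hc) hac.symm ((hcn c w).mp h4)
          · exact h2 a (hsub a ha) hau ((hcn a w).mp h3)
        simp only [Function.comp, Bool.not_eq_true']
        by_contra hcon
        rw [Bool.not_eq_false] at hcon
        have h0 := Nat.eq_of_beq_eq_true hcon
        have h5 : (Nat.land (cn u) (Nat.xor (cov1 cn (v :: l)) (cov2 cn (v :: l)))).testBit w
            = true := by
          rw [testBit_land', testBit_xor', hb1, hb2, (hcn u w).mpr h1]
          rfl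
        have h6 : Nat.land (cn u) (Nat.xor (cov1 cn (v :: l)) (cov2 cn (v :: l))) = 0 := h0
        rw [h6] at h5
        simp at h5
      have h7 := h.2
      rw [hall] at h7
      refine ih (v :: l) _ hnd hvs.2 hsub ?_ ?_ ?_ h7
      · intro u hu
        rcases List.mem_cons.mp hu with rfl | hu
        · exact hvs.1
        · exact fun hu' => hlv u hu (List.mem_cons_of_mem _ hu')
      · intro u hu
        rcases hSl u hu with h1 | h1
        · exact Or.inl (List.mem_cons_of_mem _ h1)
        · rcases List.mem_cons.mp h1 with rfl | h1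
          · exact Or.inl List.mem_cons_self
          · exact Or.inr h1
      · intro hi
        rw [hind hi, Bool.true_and]
        have h8 : Nat.land (cov1 cn l) (2 ^ (v : ℕ)) = 0 := by
          apply Nat.eq_of_testBit_eq
          intro w
          rw [testBit_land', Nat.testBit_two_pow, Nat.zero_testBit]
          by_cases hvw : (v : ℕ) = w
          · rw [decide_eq_true hvw, Bool.and_true]
            subst hvw
            by_contra hcon
            rw [Bool.not_eq_false, cov1_spec] at hcon
            obtain ⟨u, hu, huv⟩ := hcon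
            rcases (hcn u v).mp huv with h9 | h9
            · exact hvl (h9 ▸ hu)
            · exact hi u (hlS u hu) v hvS h9
          · rw [decide_eq_false hvw, Bool.and_false]
        rw [h8]
        rfl
    · refine ih l ind hl hvs.2 hlS ?_ ?_ hind h.1
      · intro u hu hu'
        exact hlv u hu (List.mem_cons_of_mem _ hu')
      · intro u hu
        rcases hSl u hu with h1 | h1
        · exact Or.inl h1
        · rcases List.mem_cons.mp h1 with rfl | h1
          · exact absurd hu hvS
          · exact Or.inr h1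

theorem good_of_go (G : SimpleGraph (Fin n)) (cn : Fin n → ℕ)
    (hcn : ∀ v w : Fin n, (cn v).testBit w = true ↔ InN G v w) (hlt : ∀ v, cn v < 2 ^ n)
    (g i b Ga : ℕ) (M : List (ℕ × ℕ))
    (hM : M = (List.finRange n).map fun v => (cn v, 2 ^ (v : ℕ)))
    (h : go (2 ^ n - 1) g i b Ga M [] 0 0 0 true = true) (S : Finset (Fin n))
    (hS : Irredundant G S) : Good G g i b Ga S := by
  refine go_sound G cn hcn hlt g i b Ga S hS (List.finRange n) [] true List.nodup_nil
    (List.nodup_finRange n) (by simp) (by simp) (fun v _ => Or.inr (List.mem_finRange v))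
    (fun _ => rfl) ?_
  rw [← hM]
  exact h

end search

/-! ### The two components -/

/-- The closed neighbourhoods (bit masks) of the first component. -/
def cX (v : Fin 18) : ℕ :=
  [83, 65555, 172036, 35336, 4115, 13344, 18497, 66944, 66432, 33544, 5280, 18504, 5168,
    139300, 149568, 33292, 65922, 155652].getD v 0

/-- The closed neighbourhoods (bit masks) of the second component. -/
def cY (v : Fin 10) : ℕ := [101, 46, 23, 154, 284, 547, 833, 904, 464, 736].getD v 0

/-- The first component, a cubic graph on 18 vertices. -/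
def GX : SimpleGraph (Fin 18) where
  Adj v w := v ≠ w ∧ (cX v).testBit w = true
  symm := ⟨by decide +kernel⟩
  loopless := ⟨fun _ h => h.1 rfl⟩

/-- The second component, a cubic graph on 10 vertices. -/
def GY : SimpleGraph (Fin 10) where
  Adj v w := v ≠ w ∧ (cY v).testBit w = true
  symm := ⟨by decide +kernel⟩
  loopless := ⟨fun _ h => h.1 rfl⟩

instance : DecidableRel GX.Adj := fun v w => inferInstanceAs (Decidable (v ≠ w ∧ _))
instance : DecidableRel GY.Adj := fun v w => inferInstanceAs (Decidable (v ≠ w ∧ _))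

lemma hcX : ∀ v w : Fin 18, (cX v).testBit w = true ↔ InN GX v w := by
  unfold InN
  decide +kernel

lemma hcY : ∀ v w : Fin 10, (cY v).testBit w = true ↔ InN GY v w := by
  unfold InN
  decide +kernel

lemma goodX (S : Finset (Fin 18)) (hS : Irredundant GX S) : Good GX 5 5 6 6 S := by
  refine good_of_go GX cX hcX (by decide +kernel) 5 5 6 6
    [(83, 1), (65555, 2), (172036, 4), (35336, 8), (4115, 16), (13344, 32), (18497, 64),
      (66944, 128), (66432, 256), (33544, 512), (5280, 1024), (18504, 2048), (5168, 4096),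
      (139300, 8192), (149568, 16384), (33292, 32768), (65922, 65536), (155652, 131072)]
    (by decide +kernel) ?_ S hS
  decide +kernel

lemma goodY (S : Finset (Fin 10)) (hS : Irredundant GY S) : Good GY 3 4 4 5 S := by
  refine good_of_go GY cY hcY (by decide +kernel) 3 4 4 5
    [(101, 1), (46, 2), (23, 4), (154, 8), (284, 16), (547, 32), (833, 64), (904, 128),
      (464, 256), (736, 512)]
    (by decide +kernel) ?_ S hS
  decide +kernel

/-- The maximality of an irredundant set can be tested on one-element extensions. -/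
lemma maxIrredundant_of {V : Type*} [DecidableEq V] (G : SimpleGraph V) {S : Finset V}
    (h1 : Irredundant G S) (h2 : ∀ v, v ∉ S → ¬ Irredundant G (insert v S)) :
    MaxIrredundant G S := by
  refine ⟨h1, ?_⟩
  intro T hT hirr
  obtain ⟨v, hv, hvS⟩ := Finset.exists_of_ssubset hT
  refine h2 v hvS (Irredundant.mono G hirr ?_)
  intro u hu
  rcases Finset.mem_insert.mp hu with rfl | hu
  · exact hv
  · exact hT.1 hu

instance decInN {n : ℕ} (G : SimpleGraph (Fin n)) [DecidableRel G.Adj] (v w : Fin n) :
    Decidable (InN G v w) := inferInstanceAs (Decidable (_ ∨ _))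

instance decDom {n : ℕ} (G : SimpleGraph (Fin n)) [DecidableRel G.Adj] (S : Finset (Fin n)) :
    Decidable (Dominating G S) := inferInstanceAs (Decidable (∀ w, ∃ v ∈ S, InN G v w))

instance decIndep {n : ℕ} (G : SimpleGraph (Fin n)) [DecidableRel G.Adj] (S : Finset (Fin n)) :
    Decidable (Indep G S) := inferInstanceAs (Decidable (∀ u ∈ S, ∀ v ∈ S, ¬ G.Adj u v))

instance decIrr {n : ℕ} (G : SimpleGraph (Fin n)) [DecidableRel G.Adj] (S : Finset (Fin n)) :
    Decidable (Irredundant G S) :=
  inferInstanceAs (Decidable (∀ v ∈ S, ∃ w, InN G v w ∧ ∀ u ∈ S, u ≠ v → ¬ InN G u w))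

/-- The cubic graph on 28 vertices: the disjoint union of the two components. -/
abbrev GG : SimpleGraph (Fin 18 ⊕ Fin 10) := GX ⊕g GY

lemma card_eq (S : Finset (Fin 18 ⊕ Fin 10)) : S.card = S.toLeft.card + S.toRight.card :=
  (Finset.card_toLeft_add_card_toRight).symm

lemma ir_le : ir GG ≤ 7 := by
  apply Nat.sInf_le
  refine ⟨Finset.disjSum {1, 4, 11, 14} {0, 2, 7}, ?_, by decide +kernel⟩
  apply maxIrredundant_of
  · rw [irredundant_iff, Finset.toLeft_disjSum, Finset.toRight_disjSum]
    exact ⟨by decide +kernel, by decide +kernel⟩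
  · intro v hv hirr
    rw [irredundant_iff] at hirr
    rcases v with v | v
    · have h1 : ∀ v : Fin 18, v ∉ ({1, 4, 11, 14} : Finset (Fin 18)) →
          ¬ Irredundant GX (insert v {1, 4, 11, 14}) := by decide +kernel
      refine h1 v (fun h => hv (Finset.inl_mem_disjSum.mpr h)) (Irredundant.mono GX hirr.1 ?_)
      intro u hu
      rw [Finset.mem_toLeft]
      rcases Finset.mem_insert.mp hu with rfl | hu
      · exact Finset.mem_insert_self _ _
      · exact Finset.mem_insert_of_mem (Finset.inl_mem_disjSum.mpr hu)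
    · have h1 : ∀ v : Fin 10, v ∉ ({0, 2, 7} : Finset (Fin 10)) →
          ¬ Irredundant GY (insert v {0, 2, 7}) := by decide +kernel
      refine h1 v (fun h => hv (Finset.inr_mem_disjSum.mpr h)) (Irredundant.mono GY hirr.2 ?_)
      intro u hu
      rw [Finset.mem_toRight]
      rcases Finset.mem_insert.mp hu with rfl | hu
      · exact Finset.mem_insert_self _ _
      · exact Finset.mem_insert_of_mem (Finset.inr_mem_disjSum.mpr hu)

lemma le_gamma : 8 ≤ gamma GG := by
  apply le_csInf
  · exact ⟨_, Finset.univ, fun w => ⟨w, Finset.mem_univ _, Or.inl rfl⟩, rfl⟩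
  · rintro k ⟨S, hS, rfl⟩
    obtain ⟨T, hTS, hT⟩ := exists_minDominating GG hS
    have hirr := MinDominating.irredundant GG hT
    have hd := hT.1
    rw [dominating_iff] at hd
    rw [irredundant_iff] at hirr
    have h1 := ((goodX _ hirr.1).1 hd.1).1
    have h2 := ((goodY _ hirr.2).1 hd.2).1
    have h3 := Finset.card_le_card hTS
    have h4 := card_eq T
    omega

lemma gamma_le : gamma GG ≤ 8 := by
  apply Nat.sInf_le
  refine ⟨Finset.disjSum {0, 2, 5, 8, 11} {0, 2, 7}, ?_, by decide +kernel⟩
  rw [dominating_iff, Finset.toLeft_disjSum, Finset.toRight_disjSum]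
  exact ⟨by decide +kernel, by decide +kernel⟩

lemma le_indDom : 9 ≤ indDom GG := by
  apply le_csInf
  · refine ⟨_, Finset.disjSum {0, 2, 5, 8, 11} {0, 1, 4, 7}, ?_, rfl⟩
    apply maxIndep_of
    · rw [dominating_iff, Finset.toLeft_disjSum, Finset.toRight_disjSum]
      exact ⟨by decide +kernel, by decide +kernel⟩
    · rw [indep_iff, Finset.toLeft_disjSum, Finset.toRight_disjSum]
      exact ⟨by decide +kernel, by decide +kernel⟩
  · rintro k ⟨S, hS, rfl⟩
    have hd := MaxIndep.dominating GG hS
    have hi := hS.1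
    have hirr := Indep.irredundant GG hi
    rw [dominating_iff] at hd
    rw [irredundant_iff] at hirr
    rw [indep_iff] at hi
    have h1 := ((goodX _ hirr.1).1 hd.1).2.2 hi.1
    have h2 := ((goodY _ hirr.2).1 hd.2).2.2 hi.2
    have h4 := card_eq S
    omega

lemma indDom_le : indDom GG ≤ 9 := by
  apply Nat.sInf_le
  refine ⟨Finset.disjSum {0, 2, 5, 8, 11} {0, 1, 4, 7}, ?_, by decide +kernel⟩
  apply maxIndep_of
  · rw [dominating_iff, Finset.toLeft_disjSum, Finset.toRight_disjSum]
    exact ⟨by decide +kernel, by decide +kernel⟩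
  · rw [indep_iff, Finset.toLeft_disjSum, Finset.toRight_disjSum]
    exact ⟨by decide +kernel, by decide +kernel⟩

lemma bdd (P : Finset (Fin 18 ⊕ Fin 10) → Prop) :
    BddAbove {k | ∃ S : Finset (Fin 18 ⊕ Fin 10), P S ∧ S.card = k} := by
  refine ⟨Fintype.card (Fin 18 ⊕ Fin 10), ?_⟩
  rintro k ⟨S, _, rfl⟩
  exact Finset.card_le_univ S

lemma le_beta0 : 10 ≤ beta0 GG := by
  apply le_csSup (bdd _)
  refine ⟨Finset.disjSum {0, 2, 3, 5, 7, 14} {0, 1, 4, 7}, ?_, by decide +kernel⟩
  rw [indep_iff, Finset.toLeft_disjSum, Finset.toRight_disjSum]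
  exact ⟨by decide +kernel, by decide +kernel⟩

lemma beta0_le : beta0 GG ≤ 10 := by
  apply csSup_le
  · exact ⟨_, ∅, fun u hu => absurd hu (Finset.notMem_empty u), rfl⟩
  · rintro k ⟨S, hi, rfl⟩
    have hirr := Indep.irredundant GG hi
    rw [irredundant_iff] at hirr
    rw [indep_iff] at hi
    have h1 := (goodX _ hirr.1).2 hi.1
    have h2 := (goodY _ hirr.2).2 hi.2
    have h4 := card_eq S
    omega

lemma le_Gam : 11 ≤ Gam GG := by
  apply le_csSup (bdd _)
  refine ⟨Finset.disjSum {0, 1, 3, 9, 10, 17} {0, 2, 4, 6, 8}, ?_, by decide +kernel⟩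
  apply minDominating_of
  · rw [dominating_iff, Finset.toLeft_disjSum, Finset.toRight_disjSum]
    exact ⟨by decide +kernel, by decide +kernel⟩
  · rw [irredundant_iff, Finset.toLeft_disjSum, Finset.toRight_disjSum]
    exact ⟨by decide +kernel, by decide +kernel⟩

lemma Gam_le : Gam GG ≤ 11 := by
  apply csSup_le
  · obtain ⟨T, _, hT⟩ := exists_minDominating GG (S := Finset.univ)
      (fun w => ⟨w, Finset.mem_univ _, Or.inl rfl⟩)
    exact ⟨_, T, hT, rfl⟩
  · rintro k ⟨S, hS, rfl⟩
    have hirr := MinDominating.irredundant GG hS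
    have hd := hS.1
    rw [dominating_iff] at hd
    rw [irredundant_iff] at hirr
    have h1 := ((goodX _ hirr.1).1 hd.1).2.1
    have h2 := ((goodY _ hirr.2).1 hd.2).2.1
    have h4 := card_eq S
    omega

lemma le_IR : 12 ≤ IR GG := by
  apply le_csSup (bdd _)
  refine ⟨Finset.disjSum {0, 1, 3, 4, 9, 13, 17} {0, 2, 4, 6, 8}, ?_, by decide +kernel⟩
  rw [irredundant_iff, Finset.toLeft_disjSum, Finset.toRight_disjSum]
  exact ⟨by decide +kernel, by decide +kernel⟩

lemma cubic : ∀ v, (GG.neighborSet v).ncard = 3 := by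
  have hX : ∀ v : Fin 18, (Finset.univ.filter fun w => GX.Adj v w).card = 3 := by
    decide +kernel
  have hY : ∀ v : Fin 10, (Finset.univ.filter fun w => GY.Adj v w).card = 3 := by
    decide +kernel
  intro v
  rcases v with v | v
  · have h : GG.neighborSet (Sum.inl v) =
        (((Finset.univ.filter fun w => GX.Adj v w).map Function.Embedding.inl :
          Finset (Fin 18 ⊕ Fin 10)) : Set (Fin 18 ⊕ Fin 10)) := by
      ext w
      rcases w with w | w <;> simp [SimpleGraph.mem_neighborSet]
    rw [h, Set.ncard_coe_finset, Finset.card_map, hX]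
  · have h : GG.neighborSet (Sum.inr v) =
        (((Finset.univ.filter fun w => GY.Adj v w).map Function.Embedding.inr :
          Finset (Fin 18 ⊕ Fin 10)) : Set (Fin 18 ⊕ Fin 10)) := by
      ext w
      rcases w with w | w <;> simp [SimpleGraph.mem_neighborSet]
    rw [h, Set.ncard_coe_finset, Finset.card_map, hY]

/-- There is a cubic graph (on 28 vertices) all of whose domination-chain inequalities are
strict. -/
theorem result : ∃ G : SimpleGraph (Fin 18 ⊕ Fin 10), (∀ v, (G.neighborSet v).ncard = 3) ∧
    ir G < gamma G ∧ gamma G < indDom G ∧ indDom G < beta0 G ∧ beta0 G < Gam G ∧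
    Gam G < IR G := by
  refine ⟨GG, cubic, ?_⟩
  have h1 := ir_le
  have h2 := le_gamma
  have h3 := gamma_le
  have h4 := le_indDom
  have h5 := indDom_le
  have h6 := le_beta0
  have h7 := beta0_le
  have h8 := le_Gam
  have h9 := Gam_le
  have h10 := le_IR
  omega

end Pool.Agent.Results.MP_93f3b8_co.StrictChain
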